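import Mathlib

/-!
# Project RES (MP_d365ae_co): light cells (statement (L) of helper59)

`D i k` is the set of outside neighbours of the cell `(i,k)` of two blocks.  If no perfect
matching of the 3 x 3 cells has a system of distinct representatives, then
`sum (|D i k| - 2) <= sum over fat cells (|D i k| - 2) - pi` and `h <= pi`, where a cell is fat if
`|D i k| >= 3`, `h` is the number of fat cells and `pi` the number of perfect matchings which
contain a fat cell.
-/

namespace Helper70.Res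

open Finset

set_option linter.unusedSectionVars false

variable {α : Type*} [DecidableEq α]

/-- no system of distinct representatives of three sets -/
def NoRep (A B C : Finset α) : Prop := ∀ a ∈ A, ∀ b ∈ B, ∀ c ∈ C, a = b ∨ a = c ∨ b = c

/-- `n - 2` if `n >= 3`, else `0` -/
def fv (n : ℕ) : ℤ := if 3 ≤ n then (n : ℤ) - 2 else 0

/-- `1` if `n >= 3`, else `0` -/
def fi (n : ℕ) : ℤ := if 3 ≤ n then 1 else 0

/-- `1` if one of the three numbers is at least 3, else `0` -/
def pf (a b c : ℕ) : ℤ := if 3 ≤ a ∨ 3 ≤ b ∨ 3 ≤ c then 1 else 0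

theorem exists_mem_ne1 {A : Finset α} (hA : 2 ≤ A.card) (b : α) : ∃ a ∈ A, a ≠ b := by
  have h : (A.erase b).Nonempty := by
    rw [← card_pos]
    have := pred_card_le_card_erase (s := A) (a := b)
    omega
  obtain ⟨a, ha⟩ := h
  rw [mem_erase] at ha
  exact ⟨a, ha.2, ha.1⟩

theorem exists_mem_ne2 {A : Finset α} (hA : 3 ≤ A.card) (b c : α) :
    ∃ a ∈ A, a ≠ b ∧ a ≠ c := by
  have h : ((A.erase b).erase c).Nonempty := by
    rw [← card_pos]
    have h1 := pred_card_le_card_erase (s := A) (a := b)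
    have h2 := pred_card_le_card_erase (s := A.erase b) (a := c)
    omega
  obtain ⟨a, ha⟩ := h
  rw [mem_erase, mem_erase] at ha
  exact ⟨a, ha.2.2, ha.2.1, ha.1⟩

/-- two sets without distinct representatives -/
theorem norep2 {B C : Finset α} (h : ∀ b ∈ B, ∀ c ∈ C, b = c) :
    B.card = 0 ∨ C.card = 0 ∨ (B.card = 1 ∧ C.card = 1) := by
  by_cases hB : B.card = 0
  · exact Or.inl hB
  by_cases hC : C.card = 0
  · exact Or.inr (Or.inl hC)
  right; right
  obtain ⟨b, hb⟩ : B.Nonempty := by rw [← card_pos]; omega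
  obtain ⟨c, hc⟩ : C.Nonempty := by rw [← card_pos]; omega
  constructor
  · rw [card_eq_one]
    refine ⟨b, ?_⟩
    ext z
    rw [mem_singleton]
    constructor
    · intro hz
      rw [h z hz c hc, h b hb c hc]
    · rintro rfl
      exact hb
  · rw [card_eq_one]
    refine ⟨c, ?_⟩
    ext z
    rw [mem_singleton]
    constructor
    · intro hz
      rw [← h b hb z hz, h b hb c hc]
    · rintro rfl
      exact hc

/-- a fat set and two others without representatives -/
theorem norep_fat {A B C : Finset α} (h : NoRep A B C) (hA : 3 ≤ A.card) :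
    B.card = 0 ∨ C.card = 0 ∨ (B.card = 1 ∧ C.card = 1) := by
  apply norep2
  intro b hb c hc
  obtain ⟨a, ha, hab, hac⟩ := exists_mem_ne2 hA b c
  rcases h a ha b hb c hc with h1 | h1 | h1
  · exact absurd h1 hab
  · exact absurd h1 hac
  · exact h1

theorem NoRep.rot {A B C : Finset α} (h : NoRep A B C) : NoRep B C A := by
  intro b hb c hc a ha
  rcases h a ha b hb c hc with h1 | h1 | h1
  · exact Or.inr (Or.inl h1.symm)
  · exact Or.inr (Or.inr h1.symm)
  · exact Or.inl h1

theorem norep_sum {A B C : Finset α} (h : NoRep A B C) :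
    ((A.card : ℤ) - 2) + ((B.card : ℤ) - 2) + ((C.card : ℤ) - 2) ≤
      fv A.card + fv B.card + fv C.card - 2 * pf A.card B.card C.card ∧
    fi A.card + fi B.card + fi C.card ≤ 2 * pf A.card B.card C.card := by
  have h1 := norep_fat h
  have h2 := norep_fat h.rot
  have h3 := norep_fat h.rot.rot
  generalize A.card = a at *
  generalize B.card = b at *
  generalize C.card = c at *
  unfold fv fi pf
  constructor
  · split_ifs <;> omega
  · split_ifs <;> omega

/-- the number of perfect matchings of the 3 x 3 cells which contain a fat cell -/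
def piF (d : Fin 3 → Fin 3 → ℕ) : ℤ := ∑ σ : Equiv.Perm (Fin 3), pf (d 0 (σ 0)) (d 1 (σ 1)) (d 2 (σ 2))

theorem sum_perm (c : Fin 3 → Fin 3 → ℤ) :
    ∑ σ : Equiv.Perm (Fin 3), ∑ i, c i (σ i) = 2 * ∑ i, ∑ k, c i k := by
  rw [Finset.sum_comm, Finset.mul_sum]
  refine Finset.sum_congr rfl fun i _ => ?_
  have h1 : ∀ σ : Equiv.Perm (Fin 3), c i (σ i) = ∑ k, if σ i = k then c i k else 0 := by
    intro σ
    rw [Finset.sum_ite_eq]
    simp
  simp_rw [h1]
  rw [Finset.sum_comm, Finset.mul_sum]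
  refine Finset.sum_congr rfl fun k _ => ?_
  rw [← Finset.sum_filter, Finset.sum_const]
  have h2 : ∀ i k : Fin 3,
      (univ.filter (fun σ : Equiv.Perm (Fin 3) => σ i = k)).card = 2 := by decide
  rw [h2]
  simp

/-- (L) of helper59 -/
theorem light {D : Fin 3 → Fin 3 → Finset α}
    (h : ∀ σ : Equiv.Perm (Fin 3), NoRep (D 0 (σ 0)) (D 1 (σ 1)) (D 2 (σ 2))) :
    (∑ i, ∑ k, (((D i k).card : ℤ) - 2) ≤
      ∑ i, ∑ k, fv (D i k).card - piF (fun i k => (D i k).card)) ∧
    ∑ i, ∑ k, fi (D i k).card ≤ piF (fun i k => (D i k).card) := by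
  have e1 := sum_perm (fun i k => (((D i k).card : ℤ) - 2))
  have e2 := sum_perm (fun i k => fv (D i k).card)
  have e3 := sum_perm (fun i k => fi (D i k).card)
  have s1 : ∑ σ : Equiv.Perm (Fin 3), ∑ i, (((D i (σ i)).card : ℤ) - 2) ≤
      ∑ σ : Equiv.Perm (Fin 3), ((∑ i, fv (D i (σ i)).card) -
        2 * pf (D 0 (σ 0)).card (D 1 (σ 1)).card (D 2 (σ 2)).card) := by
    refine Finset.sum_le_sum fun σ _ => ?_
    rw [Fin.sum_univ_three, Fin.sum_univ_three]
    exact (norep_sum (h σ)).1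
  have s2 : ∑ σ : Equiv.Perm (Fin 3), ∑ i, fi (D i (σ i)).card ≤
      ∑ σ : Equiv.Perm (Fin 3), 2 * pf (D 0 (σ 0)).card (D 1 (σ 1)).card (D 2 (σ 2)).card := by
    refine Finset.sum_le_sum fun σ _ => ?_
    rw [Fin.sum_univ_three]
    exact (norep_sum (h σ)).2
  rw [Finset.sum_sub_distrib, ← Finset.mul_sum] at s1
  rw [← Finset.mul_sum] at s2
  unfold piF
  constructor
  · linarith
  · linarith

/-- short form of (L): the light deficits pay 1 for every fat cell -/
theorem light' {D : Fin 3 → Fin 3 → Finset α}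
    (h : ∀ σ : Equiv.Perm (Fin 3), NoRep (D 0 (σ 0)) (D 1 (σ 1)) (D 2 (σ 2))) :
    ∑ i, ∑ k, (((D i k).card : ℤ) - 2) ≤
      ∑ i, ∑ k, (fv (D i k).card - fi (D i k).card) := by
  have := light h
  simp_rw [Finset.sum_sub_distrib] at this ⊢
  linarith [this.1, this.2]

/-- if the fat cells lie in the cross of the fat cell `(i,k)`, then `h + 1 <= pi` -/
theorem fat_cross (d : Fin 3 → Fin 3 → ℕ) (i k : Fin 3) (hf : 3 ≤ d i k)
    (h2 : ∀ σ : Equiv.Perm (Fin 3), fi (d 0 (σ 0)) + fi (d 1 (σ 1)) + fi (d 2 (σ 2)) ≤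
      2 * pf (d 0 (σ 0)) (d 1 (σ 1)) (d 2 (σ 2)))
    (hc : ∀ i' k', i' ≠ i → k' ≠ k → d i' k' < 3) :
    ∑ i, ∑ k, fi (d i k) + 1 ≤ piF d := by
  have e3 := sum_perm (fun i k => fi (d i k))
  -- the two perfect matchings through `(i,k)` have only one fat cell
  have s1 : ∑ σ : Equiv.Perm (Fin 3), ∑ i, fi (d i (σ i)) ≤
      ∑ σ : Equiv.Perm (Fin 3), (2 * pf (d 0 (σ 0)) (d 1 (σ 1)) (d 2 (σ 2)) -
        if σ i = k then 1 else 0) := by
    refine Finset.sum_le_sum fun σ _ => ?_
    rw [Fin.sum_univ_three]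
    by_cases hσ : σ i = k
    · rw [if_pos hσ]
      have hz : ∀ i', i' ≠ i → fi (d i' (σ i')) = 0 := by
        intro i' hi'
        have := hc i' (σ i') hi' (fun h => hi' (σ.injective (h.trans hσ.symm)))
        unfold fi
        rw [if_neg (by omega)]
      have hp : pf (d 0 (σ 0)) (d 1 (σ 1)) (d 2 (σ 2)) = 1 := by
        unfold pf
        rw [if_pos]
        rw [← hσ] at hf
        fin_cases i
        · exact Or.inl hf
        · exact Or.inr (Or.inl hf)
        · exact Or.inr (Or.inr hf)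
      have h1 : ∀ n, fi n ≤ 1 := by
        intro n
        unfold fi
        split_ifs <;> omega
      rw [hp]
      fin_cases i
      · have z1 := hz 1 (by decide)
        have z2 := hz 2 (by decide)
        have := h1 (d 0 (σ 0))
        omega
      · have z1 := hz 0 (by decide)
        have z2 := hz 2 (by decide)
        have := h1 (d 1 (σ 1))
        omega
      · have z1 := hz 0 (by decide)
        have z2 := hz 1 (by decide)
        have := h1 (d 2 (σ 2))
        omega
    · rw [if_neg hσ, sub_zero]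
      exact h2 σ
  rw [Finset.sum_sub_distrib, ← Finset.mul_sum, ← Finset.sum_filter] at s1
  have hcard : ∀ i k : Fin 3,
      (univ.filter (fun σ : Equiv.Perm (Fin 3) => σ i = k)).card = 2 := by decide
  rw [Finset.sum_const, hcard] at s1
  simp only [nsmul_eq_mul, mul_one] at s1
  unfold piF
  push_cast at s1
  linarith

/-- if no two fat cells are disjoint (fat cells in one row or one column), then `pi = 2 h` -/
theorem fat_line (d : Fin 3 → Fin 3 → ℕ)
    (hc : ∀ i k i' k', i' ≠ i → k' ≠ k → 3 ≤ d i k → d i' k' < 3) :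
    piF d = 2 * ∑ i, ∑ k, fi (d i k) := by
  rw [← sum_perm (fun i k => fi (d i k))]
  unfold piF
  refine Finset.sum_congr rfl fun σ _ => ?_
  rw [Fin.sum_univ_three]
  have hne : ∀ i i', i' ≠ i → σ i' ≠ σ i := fun i i' h h' => h (σ.injective h')
  have a01 := hc 0 (σ 0) 1 (σ 1) (by decide) (hne 0 1 (by decide))
  have a02 := hc 0 (σ 0) 2 (σ 2) (by decide) (hne 0 2 (by decide))
  have a12 := hc 1 (σ 1) 2 (σ 2) (by decide) (hne 1 2 (by decide))
  unfold pf fi
  split_ifs <;> omega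

section Sets

variable {V : Type*} [DecidableEq V]

/-- enumeration of a 3-set -/
theorem exists_enum {e : Finset V} (he : e.card = 3) :
    ∃ u : Fin 3 → V, Function.Injective u ∧ (∀ i, u i ∈ e) ∧ (∀ v ∈ e, ∃ i, u i = v) ∧
      ∀ g : V → ℤ, ∑ v ∈ e, g v = ∑ i, g (u i) := by
  obtain ⟨a, b, c, hab, hac, hbc, rfl⟩ := Finset.card_eq_three.1 he
  refine ⟨![a, b, c], ?_, ?_, ?_, ?_⟩
  · intro i j hij
    fin_cases i <;> fin_cases j <;> simp_all
  · intro i
    fin_cases i <;> simp
  · intro v hv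
    simp only [mem_insert, mem_singleton] at hv
    rcases hv with rfl | rfl | rfl
    · exact ⟨0, rfl⟩
    · exact ⟨1, rfl⟩
    · exact ⟨2, rfl⟩
  · intro g
    rw [Fin.sum_univ_three, Finset.sum_insert (by simp [hab, hac]), Finset.sum_insert (by simp [hbc]),
      Finset.sum_singleton]
    simp only [Matrix.cons_val_zero, Matrix.cons_val_one, Matrix.cons_val]
    ring

/-- no perfect matching of the cells of `e x f` has a system of distinct representatives -/
def NoRepSet (e f : Finset V) (D : V → V → Finset α) : Prop :=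
  ∀ u ∈ e, ∀ v ∈ e, ∀ t ∈ e, u ≠ v → u ≠ t → v ≠ t →
    ∀ a ∈ f, ∀ b ∈ f, ∀ c ∈ f, a ≠ b → a ≠ c → b ≠ c → NoRep (D u a) (D v b) (D t c)

/-- (L), version for sets -/
theorem light_set {e f : Finset V} (he : e.card = 3) (hf : f.card = 3) {D : V → V → Finset α}
    (h : NoRepSet e f D) :
    ∑ u ∈ e, ∑ a ∈ f, (((D u a).card : ℤ) - 2) ≤
      ∑ u ∈ e, ∑ a ∈ f, (fv (D u a).card - fi (D u a).card) := by
  obtain ⟨u, hui, hue, -, hu⟩ := exists_enum he
  obtain ⟨a, hai, haf, -, ha⟩ := exists_enum hf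
  simp_rw [hu, ha]
  apply light' (D := fun i k => D (u i) (a k))
  intro σ
  have hne : ∀ i i', i ≠ i' → σ i ≠ σ i' := fun i i' h h' => h (σ.injective h')
  exact h _ (hue 0) _ (hue 1) _ (hue 2) (hui.ne (by decide)) (hui.ne (by decide))
    (hui.ne (by decide)) _ (haf _) _ (haf _) _ (haf _) (hai.ne (hne 0 1 (by decide)))
    (hai.ne (hne 0 2 (by decide))) (hai.ne (hne 1 2 (by decide)))

/-- (L), if every fat cell meets the fat cell `(u0, a0)` -/
theorem light_set_cross {e f : Finset V} (he : e.card = 3) (hf : f.card = 3)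
    {D : V → V → Finset α} (h : NoRepSet e f D) {u0 a0 : V} (hu0 : u0 ∈ e) (ha0 : a0 ∈ f)
    (h0 : 3 ≤ (D u0 a0).card)
    (hc : ∀ u ∈ e, ∀ a ∈ f, u ≠ u0 → a ≠ a0 → (D u a).card < 3) :
    ∑ u ∈ e, ∑ a ∈ f, (((D u a).card : ℤ) - 2) ≤
      ∑ u ∈ e, ∑ a ∈ f, (fv (D u a).card - fi (D u a).card) - 1 := by
  obtain ⟨u, hui, hue, hus, hu⟩ := exists_enum he
  obtain ⟨a, hai, haf, has, ha⟩ := exists_enum hf
  obtain ⟨i0, rfl⟩ := hus u0 hu0
  obtain ⟨k0, rfl⟩ := has a0 ha0
  simp_rw [hu, ha]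
  have hN : ∀ σ : Equiv.Perm (Fin 3), NoRep (D (u 0) (a (σ 0))) (D (u 1) (a (σ 1)))
      (D (u 2) (a (σ 2))) := by
    intro σ
    have hne : ∀ i i', i ≠ i' → σ i ≠ σ i' := fun i i' h h' => h (σ.injective h')
    exact h _ (hue 0) _ (hue 1) _ (hue 2) (hui.ne (by decide)) (hui.ne (by decide))
      (hui.ne (by decide)) _ (haf _) _ (haf _) _ (haf _) (hai.ne (hne 0 1 (by decide)))
      (hai.ne (hne 0 2 (by decide))) (hai.ne (hne 1 2 (by decide)))
  have h1 := light (D := fun i k => D (u i) (a k)) hN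
  have h2 := fat_cross (fun i k => (D (u i) (a k)).card) i0 k0 h0
    (fun σ => (norep_sum (hN σ)).2)
    (fun i' k' hi hk => hc _ (hue i') _ (haf k') (hui.ne hi) (hai.ne hk))
  simp_rw [Finset.sum_sub_distrib] at h1 ⊢
  linarith [h1.1]

/-- (L), if no two fat cells are disjoint -/
theorem light_set_line {e f : Finset V} (he : e.card = 3) (hf : f.card = 3)
    {D : V → V → Finset α} (h : NoRepSet e f D)
    (hc : ∀ u ∈ e, ∀ a ∈ f, ∀ u' ∈ e, ∀ a' ∈ f, u' ≠ u → a' ≠ a → 3 ≤ (D u a).card →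
      (D u' a').card < 3) :
    ∑ u ∈ e, ∑ a ∈ f, (((D u a).card : ℤ) - 2) ≤
      ∑ u ∈ e, ∑ a ∈ f, (fv (D u a).card - 2 * fi (D u a).card) := by
  obtain ⟨u, hui, hue, hus, hu⟩ := exists_enum he
  obtain ⟨a, hai, haf, has, ha⟩ := exists_enum hf
  simp_rw [hu, ha]
  have hN : ∀ σ : Equiv.Perm (Fin 3), NoRep (D (u 0) (a (σ 0))) (D (u 1) (a (σ 1)))
      (D (u 2) (a (σ 2))) := by
    intro σ
    have hne : ∀ i i', i ≠ i' → σ i ≠ σ i' := fun i i' h h' => h (σ.injective h')
    exact h _ (hue 0) _ (hue 1) _ (hue 2) (hui.ne (by decide)) (hui.ne (by decide))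
      (hui.ne (by decide)) _ (haf _) _ (haf _) _ (haf _) (hai.ne (hne 0 1 (by decide)))
      (hai.ne (hne 0 2 (by decide))) (hai.ne (hne 1 2 (by decide)))
  have h1 := light (D := fun i k => D (u i) (a k)) hN
  have h2 := fat_line (fun i k => (D (u i) (a k)).card)
    (fun i k i' k' hi hk hf => hc _ (hue i) _ (haf k) _ (hue i') _ (haf k') (hui.ne hi)
      (hai.ne hk) hf)
  rw [h2] at h1
  simp_rw [Finset.sum_sub_distrib, ← Finset.mul_sum] at h1 ⊢
  linarith [h1.1]

end Sets

end Helper70.Res
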