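import Mathlib
import Pool.Agent.Helper21.Res.Caps
import Pool.Agent.Helper65.Res.Exact

/-!
# Project RES (MP_d365ae_co): the edges with one point in `V(M)`, summed over a block

For a block `e` of a maximum matching `M` let `G_p` (`p ∈ e`) be the graph of the pairs
`{w, w'}` outside `V(M)` with `p w w'` an edge.  All degrees are at most `s + 1` and the three
graphs are pairwise cross-intersecting.  Hence:

* `sum_gW_le`: the sum of the `|G_p|` over `e` is at most `(s+1)^2` (`s >= 3`);
* `sum_gW_le_of_two`: it is at most `3 (s+1)` if two of the graphs are non-empty.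
-/

namespace Helper70.Res

open Finset Res12 Helper1.Res Helper21.Res

set_option linter.unusedSectionVars false

section Graph

variable {α : Type*} [DecidableEq α]

/-- the pairs of `G` at a vertex outside an edge `h` of a cross-intersecting family -/
theorem star_sub {G : Finset (Finset α)} (hG : ∀ g ∈ G, g.card = 2) {h : Finset α}
    (hc : ∀ g ∈ G, ¬ Disjoint g h) {a : α} (ha : a ∉ h) :
    (G.filter (fun g => a ∈ g)).card ≤ h.card := by
  have hsub : G.filter (fun g => a ∈ g) ⊆ h.image (fun z => ({a, z} : Finset α)) := by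
    intro g hg
    rw [mem_filter] at hg
    obtain ⟨z, hz, hzh⟩ := Finset.not_disjoint_iff.1 (hc g hg.1)
    have hne : a ≠ z := by
      rintro rfl
      exact ha hzh
    refine mem_image.2 ⟨z, hzh, ?_⟩
    apply Finset.eq_of_subset_of_card_le
    · intro v hv
      simp only [mem_insert, mem_singleton] at hv
      rcases hv with rfl | rfl
      · exact hg.2
      · exact hz
    · rw [hG g hg.1, card_pair hne]
  exact (card_le_card hsub).trans card_image_le

/-- the two-cover argument -/
theorem cross_big {G H K : Finset (Finset α)} {D : ℕ} (hD : 4 ≤ D)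
    (hG : ∀ g ∈ G, g.card = 2) (hH : ∀ g ∈ H, g.card = 2) (hK : ∀ g ∈ K, g.card = 2)
    (hdeg : ∀ w, (G.filter (fun g => w ∈ g)).card ≤ D)
    (hGH : ∀ g ∈ G, ∀ h ∈ H, ¬ Disjoint g h) (hGK : ∀ g ∈ G, ∀ h ∈ K, ¬ Disjoint g h)
    (hbig : D < G.card) (hne : (H ∪ K).Nonempty) :
    G.card + H.card + K.card ≤ 3 * D := by
  have hc : ∀ h ∈ H ∪ K, h.card = 2 ∧ ∀ g ∈ G, ¬ Disjoint g h := by
    intro h hh
    rw [mem_union] at hh
    rcases hh with hh | hh
    · exact ⟨hH h hh, fun g hg => hGH g hg h hh⟩
    · exact ⟨hK h hh, fun g hg => hGK g hg h hh⟩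
  obtain ⟨h0, hh0⟩ := hne
  obtain ⟨h02, h0c⟩ := hc h0 hh0
  obtain ⟨p, q, hpq, rfl⟩ := card_eq_two.1 h02
  have hsub : G ⊆ G.filter (fun g => p ∈ g) ∪ G.filter (fun g => q ∈ g) := by
    intro g hg
    obtain ⟨z, hz, hz'⟩ := Finset.not_disjoint_iff.1 (h0c g hg)
    simp only [mem_insert, mem_singleton] at hz'
    rw [mem_union, mem_filter, mem_filter]
    rcases hz' with rfl | rfl
    · exact Or.inl ⟨hg, hz⟩
    · exact Or.inr ⟨hg, hz⟩
  have hle := (card_le_card hsub).trans (card_union_le _ _)
  have hp := hdeg p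
  have hq := hdeg q
  -- a vertex of degree at least 3
  obtain ⟨a, ha⟩ : ∃ a, 3 ≤ (G.filter (fun g => a ∈ g)).card := by
    by_contra hcon
    push Not at hcon
    have h1 := hcon p
    have h2 := hcon q
    omega
  -- an edge avoiding it
  obtain ⟨g0, hg0, hag0⟩ : ∃ g0 ∈ G, a ∉ g0 := by
    by_contra hcon
    push Not at hcon
    have h1 : G.filter (fun g => a ∈ g) = G := filter_true_of_mem hcon
    have h2 := hdeg a
    rw [h1] at h2
    omega
  have hall : ∀ h ∈ H ∪ K, a ∈ h := by
    intro h hh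
    by_contra hah
    have h1 := star_sub hG (hc h hh).2 hah
    rw [(hc h hh).1] at h1
    omega
  have hfin : ∀ L : Finset (Finset α), L ⊆ H ∪ K → L.card ≤ 2 := by
    intro L hL
    have h1 : L ⊆ g0.image (fun z => ({a, z} : Finset α)) := by
      intro h hh
      have h2 := hL hh
      obtain ⟨z, hz, hzh⟩ := Finset.not_disjoint_iff.1 ((hc h h2).2 g0 hg0)
      have hne : a ≠ z := by
        rintro rfl
        exact hag0 hz
      refine mem_image.2 ⟨z, hz, ?_⟩
      apply Finset.eq_of_subset_of_card_le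
      · intro v hv
        simp only [mem_insert, mem_singleton] at hv
        rcases hv with rfl | rfl
        · exact hall h h2
        · exact hzh
      · rw [(hc h h2).1, card_pair hne]
    have h3 := (card_le_card h1).trans card_image_le
    rwa [hG g0 hg0] at h3
  have e1 := hfin H subset_union_left
  have e2 := hfin K subset_union_right
  omega

/-- three pairwise cross-intersecting graphs, two of them non-empty -/
theorem cross_sum {G H K : Finset (Finset α)} {D : ℕ} (hD : 4 ≤ D)
    (hG : ∀ g ∈ G, g.card = 2) (hH : ∀ g ∈ H, g.card = 2) (hK : ∀ g ∈ K, g.card = 2)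
    (dG : ∀ w, (G.filter (fun g => w ∈ g)).card ≤ D)
    (dH : ∀ w, (H.filter (fun g => w ∈ g)).card ≤ D)
    (dK : ∀ w, (K.filter (fun g => w ∈ g)).card ≤ D)
    (hGH : ∀ g ∈ G, ∀ h ∈ H, ¬ Disjoint g h) (hGK : ∀ g ∈ G, ∀ h ∈ K, ¬ Disjoint g h)
    (hHK : ∀ g ∈ H, ∀ h ∈ K, ¬ Disjoint g h)
    (h1 : (H ∪ K).Nonempty) (h2 : (G ∪ K).Nonempty) (h3 : (G ∪ H).Nonempty) :
    G.card + H.card + K.card ≤ 3 * D := by
  by_cases bG : D < G.card
  · exact cross_big hD hG hH hK dG hGH hGK bG h1
  by_cases bH : D < H.card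
  · have := cross_big hD hH hG hK dH (fun g hg h hh hd => hGH h hh g hg hd.symm) hHK bH h2
    omega
  by_cases bK : D < K.card
  · have := cross_big hD hK hG hH dK (fun g hg h hh hd => hGK h hh g hg hd.symm)
      (fun g hg h hh hd => hHK h hh g hg hd.symm) bK h3
    omega
  omega

end Graph

variable {V : Type} [Fintype V] [DecidableEq V] {F M : Finset (Finset V)} {s : ℕ}

/-- the graph of the pairs outside `VS M` which complete `p` to an edge -/
def GW (F M : Finset (Finset V)) (p : V) : Finset (Finset V) :=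
  ((univ \ VS M).powersetCard 2).filter (fun q => insert p q ∈ F)

theorem card_GW (F M : Finset (Finset V)) (p : V) : (GW F M p).card = gW F (VS M) p := rfl

theorem mem_GW {p : V} {q : Finset V} : q ∈ GW F M p ↔
    (∀ z ∈ q, z ∉ VS M) ∧ q.card = 2 ∧ insert p q ∈ F := by
  unfold GW
  rw [mem_filter, mem_powersetCard, and_assoc]
  refine and_congr ?_ Iff.rfl
  constructor
  · intro h z hz
    have := h hz
    rw [mem_sdiff] at this
    exact this.2
  · intro h z hz
    exact mem_sdiff.2 ⟨mem_univ _, h z hz⟩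

theorem GW_two {p : V} : ∀ q ∈ GW F M p, q.card = 2 := fun _ hq => (mem_GW.1 hq).2.1

/-- degrees in `G_p` -/
theorem deg_GW (hM : MM F s M) (p w : V) :
    ((GW F M p).filter (fun q => w ∈ q)).card ≤ s + 1 := by
  by_cases hw : w ∈ VS M
  · have : (GW F M p).filter (fun q => w ∈ q) = ∅ := by
      rw [filter_eq_empty_iff]
      intro q hq hwq
      exact (mem_GW.1 hq).1 w hwq hw
    rw [this]
    simp
  · have hsub : (GW F M p).filter (fun q => w ∈ q) ⊆
        (N F p w \ VS M).image (fun z => ({w, z} : Finset V)) := by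
      intro q hq
      rw [mem_filter, mem_GW] at hq
      obtain ⟨⟨h1, h2, h3⟩, hwq⟩ := hq
      have h4 : (q.erase w).card = 1 := by
        rw [card_erase_of_mem hwq, h2]
      obtain ⟨z, hz⟩ := card_eq_one.1 h4
      have h5 : q = {w, z} := by rw [← insert_erase hwq, hz]
      have hzq : z ∈ q := by rw [h5]; simp
      rw [mem_image]
      refine ⟨z, mem_sdiff.2 ⟨mem_N.2 ?_, h1 z hzq⟩, h5.symm⟩
      rw [h5] at h3
      exact h3
    exact (card_le_card hsub).trans (card_image_le.trans (cap_one hM (Or.inl hw)))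

/-- the number of edges of `G_p` -/
theorem card_GW_le (hM : MM F s M) {p : V} (hp : p ∈ VS M) :
    (GW F M p).card ≤ (s + 1) * (s + 1) := by
  refine le_trans ?_ (card_G hM p)
  apply card_le_card_of_injOn (fun q => insert p q)
  · intro q hq
    rw [mem_coe, mem_GW] at hq
    rw [mem_coe, mem_filter]
    refine ⟨hq.2.2, mem_insert_self _ _, fun z hz => ?_⟩
    rw [mem_insert] at hz
    rcases hz with h | h
    · exact Or.inl h
    · exact Or.inr (hq.1 z h)
  · intro q hq q' hq' hqq
    rw [mem_coe, mem_GW] at hq hq'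
    have h1 : p ∉ q := fun h => hq.1 p h hp
    have h2 : p ∉ q' := fun h => hq'.1 p h hp
    have h3 : (insert p q).erase p = (insert p q').erase p := by
      simp only at hqq
      rw [hqq]
    rwa [erase_insert h1, erase_insert h2] at h3

/-- the graphs of two points of one block are cross-intersecting -/
theorem GW_cross (hM : MM F s M) {e : Finset V} (he : e ∈ M) {p q : V} (hp : p ∈ e) (hq : q ∈ e)
    (hpq : p ≠ q) : ∀ g ∈ GW F M p, ∀ h ∈ GW F M q, ¬ Disjoint g h := by
  intro g hg h hh hd
  rw [mem_GW] at hg hh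
  refine one_block hM he hg.2.2 hh.2.2 ?_ ?_ ?_
  · rw [Finset.disjoint_left]
    intro z hz hz'
    rw [mem_insert] at hz hz'
    rcases hz with rfl | hz <;> rcases hz' with h1 | hz'
    · exact hpq h1
    · exact hh.1 _ hz' (mem_VS.2 ⟨e, he, hp⟩)
    · rw [h1] at hz
      exact hg.1 _ hz (mem_VS.2 ⟨e, he, hq⟩)
    · exact Finset.disjoint_left.1 hd hz hz'
  · intro z hz
    rw [mem_insert] at hz
    rcases hz with rfl | hz
    · exact Or.inl hp
    · exact Or.inr (hg.1 z hz)
  · intro z hz
    rw [mem_insert] at hz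
    rcases hz with rfl | hz
    · exact Or.inl hq
    · exact Or.inr (hh.1 z hz)

/-- two of the three graphs of a block are non-empty: at most `3 (s+1)` edges -/
theorem sum_gW_le_of_two (hM : MM F s M) (hs : 3 ≤ s) {e : Finset V} (he : e ∈ M) {p q : V}
    (hp : p ∈ e) (hq : q ∈ e) (hpq : p ≠ q) (np : 0 < gW F (VS M) p) (nq : 0 < gW F (VS M) q) :
    ∑ v ∈ e, gW F (VS M) v ≤ 3 * (s + 1) := by
  have h3 := hM.hyp.three e (hM.sub he)
  obtain ⟨r, hr⟩ : (((e.erase p).erase q)).Nonempty := by
    rw [← card_pos, card_erase_of_mem (mem_erase.2 ⟨hpq.symm, hq⟩), card_erase_of_mem hp, h3]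
    norm_num
  rw [mem_erase, mem_erase] at hr
  obtain ⟨hrq, hrp, hre⟩ := hr
  have he3 : e = {p, q, r} := by
    symm
    apply Finset.eq_of_subset_of_card_le
    · intro v hv
      simp only [mem_insert, mem_singleton] at hv
      rcases hv with rfl | rfl | rfl <;> assumption
    · rw [h3, card_eq_three.2 ⟨p, q, r, hpq, hrp.symm, hrq.symm, rfl⟩]
  have hsum : ∑ v ∈ e, gW F (VS M) v = (GW F M p).card + (GW F M q).card + (GW F M r).card := by
    rw [he3, Finset.sum_insert (by simp [hpq, hrp.symm]), Finset.sum_insert (by simp [hrq.symm]),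
      Finset.sum_singleton]
    simp only [card_GW]
    ring
  rw [hsum]
  have np' : (GW F M p).Nonempty := by rw [← card_pos, card_GW]; exact np
  have nq' : (GW F M q).Nonempty := by rw [← card_pos, card_GW]; exact nq
  exact cross_sum (D := s + 1) (by omega) GW_two GW_two GW_two (deg_GW hM p) (deg_GW hM q)
    (deg_GW hM r) (GW_cross hM he hp hq hpq) (GW_cross hM he hp hre hrp.symm)
    (GW_cross hM he hq hre hrq.symm) (nq'.mono subset_union_left) (np'.mono subset_union_left)
    (np'.mono subset_union_left)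

/-- **block sum of the edges with one point in `V(M)`** -/
theorem sum_gW_le (hM : MM F s M) (hs : 3 ≤ s) {e : Finset V} (he : e ∈ M) :
    ∑ v ∈ e, gW F (VS M) v ≤ (s + 1) * (s + 1) := by
  by_cases h2 : ∃ p ∈ e, ∃ q ∈ e, p ≠ q ∧ 0 < gW F (VS M) p ∧ 0 < gW F (VS M) q
  · obtain ⟨p, hp, q, hq, hpq, np, nq⟩ := h2
    have := sum_gW_le_of_two hM hs he hp hq hpq np nq
    nlinarith
  · push Not at h2
    by_cases h1 : ∃ p ∈ e, 0 < gW F (VS M) p
    · obtain ⟨p, hp, np⟩ := h1
      rw [Finset.sum_eq_single_of_mem p hp]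
      · exact card_GW_le hM (mem_VS.2 ⟨e, he, hp⟩)
      · intro q hq hqp
        have := h2 p hp q hq hqp.symm np
        omega
    · push Not at h1
      rw [Finset.sum_eq_zero (fun p hp => by have := h1 p hp; omega)]
      exact Nat.zero_le _

end Helper70.Res
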