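import Pool.Agent.Helper70.Res.J0b
import Pool.Agent.Helper65.Res.Frame

/-!
# Project RES (MP_d365ae_co): the case `j = 0` of route A

`RouteA.card_le_j0`: if some pair has codegree `3 s`, then `|F| ≤ C(3s+2, 3)`.
-/

namespace Helper70.Res

open Finset Res12 RouteA Helper1.Res Helper54.Res Helper9.Res

set_option linter.unusedSectionVars false

variable {V : Type} [Fintype V] [DecidableEq V]
variable {F P : Finset (Finset V)} {s j : ℕ} {x y : V}

/-- `1` if `N'_o(u)` is non-empty, else `0` -/
def ne1 (F P : Finset (Finset V)) (x y o u : V) : ℕ := if 0 < (lb F P x y o u).card then 1 else 0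

theorem pairs_of_three {u v t : V} (h1 : u ≠ v) (h2 : u ≠ t) (h3 : v ≠ t) (g : Finset V → ℤ) :
    ∑ p ∈ ({u, v, t} : Finset V).powersetCard 2, g p = g {v, t} + g {u, t} + g {u, v} := by
  have hS : ({u, v, t} : Finset V).powersetCard 2 = {{v, t}, {u, t}, {u, v}} := by
    have n1 : ({v, t} : Finset V) ≠ {u, t} := by
      intro h
      have : u ∈ ({v, t} : Finset V) := by rw [h]; simp
      simp only [mem_insert, mem_singleton] at this
      rcases this with h' | h'
      · exact h1 h'
      · exact h2 h'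
    have n2 : ({v, t} : Finset V) ≠ {u, v} := by
      intro h
      have : u ∈ ({v, t} : Finset V) := by rw [h]; simp
      simp only [mem_insert, mem_singleton] at this
      rcases this with h' | h'
      · exact h1 h'
      · exact h2 h'
    have n3 : ({u, t} : Finset V) ≠ {u, v} := by
      intro h
      have : t ∈ ({u, v} : Finset V) := by rw [← h]; simp
      simp only [mem_insert, mem_singleton] at this
      rcases this with h' | h'
      · exact h2 h'.symm
      · exact h3 h'.symm
    symm
    apply eq_of_subset_of_card_le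
    · intro p hp
      simp only [mem_insert, mem_singleton] at hp
      rw [mem_powersetCard]
      rcases hp with rfl | rfl | rfl
      · refine ⟨?_, card_pair h3⟩
        intro z hz
        simp only [mem_insert, mem_singleton] at hz ⊢
        tauto
      · refine ⟨?_, card_pair h2⟩
        intro z hz
        simp only [mem_insert, mem_singleton] at hz ⊢
        tauto
      · refine ⟨?_, card_pair h1⟩
        intro z hz
        simp only [mem_insert, mem_singleton] at hz ⊢
        tauto
    · have c1 : ({u, v, t} : Finset V).card = 3 := card_eq_three.2 ⟨u, v, t, h1, h2, h3, rfl⟩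
      have c2 : ({{v, t}, {u, t}, {u, v}} : Finset (Finset V)).card = 3 :=
        card_eq_three.2 ⟨_, _, _, n1, n2, n3, rfl⟩
      rw [card_powersetCard, c1, c2]
      decide
  have n1 : ({v, t} : Finset V) ∉ ({{u, t}, {u, v}} : Finset (Finset V)) := by
    simp only [mem_insert, mem_singleton, not_or]
    constructor
    · intro h
      have : u ∈ ({v, t} : Finset V) := by rw [h]; simp
      simp only [mem_insert, mem_singleton] at this
      rcases this with h' | h'
      · exact h1 h'
      · exact h2 h'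
    · intro h
      have : u ∈ ({v, t} : Finset V) := by rw [h]; simp
      simp only [mem_insert, mem_singleton] at this
      rcases this with h' | h'
      · exact h1 h'
      · exact h2 h'
  have n3 : ({u, t} : Finset V) ≠ {u, v} := by
    intro h
    have : t ∈ ({u, v} : Finset V) := by rw [← h]; simp
    simp only [mem_insert, mem_singleton] at this
    rcases this with h' | h'
    · exact h2 h'.symm
    · exact h3 h'.symm
  rw [hS, sum_insert n1, sum_pair n3]
  ring

section
variable (h : SetUp F s j P x y)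
include h

/-- a non-empty `N'_x(u)` kills `{v, t, y}` -/
theorem own_kill_x {u v t : V} (he : ({u, v, t} : Finset V) ∈ P)
    (hne : 0 < (lb F P x y x u).card) : y ∉ N F v t := by
  intro hy
  rw [mem_N] at hy
  obtain ⟨w, hw⟩ := card_pos.1 hne
  obtain ⟨w1, w2, w3, w4⟩ := mem_lb.1 hw
  have hM := toMM h
  obtain ⟨n1, n2, n3⟩ := hM.ne3 he
  refine one_block hM he w1 hy
    (disj3 ⟨(out_ne he (by simp) h.avx).symm, (out_ne he (by simp) h.avx).symm, h.ne, n1, n2,
      out_ne he (by simp) h.avy, (out_ne he (by simp) w2).symm, (out_ne he (by simp) w2).symm,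
      w4⟩) ?_ ?_
  · intro z hz
    simp only [mem_insert, mem_singleton] at hz
    rcases hz with rfl | rfl | rfl
    · exact Or.inr h.avx
    · exact Or.inl (by simp)
    · exact Or.inr w2
  · intro z hz
    simp only [mem_insert, mem_singleton] at hz
    rcases hz with rfl | rfl | rfl
    · exact Or.inl (by simp)
    · exact Or.inl (by simp)
    · exact Or.inr h.avy

/-- a non-empty `N'_y(u)` kills `{v, t, x}` -/
theorem own_kill_y {u v t : V} (he : ({u, v, t} : Finset V) ∈ P)
    (hne : 0 < (lb F P x y y u).card) : x ∉ N F v t := by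
  intro hy
  rw [mem_N] at hy
  obtain ⟨w, hw⟩ := card_pos.1 hne
  obtain ⟨w1, w2, w3, w4⟩ := mem_lb.1 hw
  have hM := toMM h
  obtain ⟨n1, n2, n3⟩ := hM.ne3 he
  refine one_block hM he w1 hy
    (disj3 ⟨(out_ne he (by simp) h.avy).symm, (out_ne he (by simp) h.avy).symm, h.ne.symm, n1,
      n2, out_ne he (by simp) h.avx, (out_ne he (by simp) w2).symm,
      (out_ne he (by simp) w2).symm, w3⟩) ?_ ?_
  · intro z hz
    simp only [mem_insert, mem_singleton] at hz
    rcases hz with rfl | rfl | rfl
    · exact Or.inr h.avy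
    · exact Or.inl (by simp)
    · exact Or.inr w2
  · intro z hz
    simp only [mem_insert, mem_singleton] at hz
    rcases hz with rfl | rfl | rfl
    · exact Or.inl (by simp)
    · exact Or.inl (by simp)
    · exact Or.inr h.avx

end

section
variable (h : SetUp F s 0 P x y)
include h

/-- the own pair `v t` opposite to `u` -/
theorem own_pair {u v t : V} (he : ({u, v, t} : Finset V) ∈ P) :
    (Helper28.Res.dg F (VS P) {v, t} : ℤ) - 2 ≤
      - (ne1 F P x y x u : ℤ) - (ne1 F P x y y u : ℤ) := by
  obtain ⟨n1, n2, n3⟩ := (toMM h).ne3 he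
  have hl : lb F P x y v t = ∅ := by
    rw [← not_nonempty_iff_eq_empty]
    rintro ⟨w, hw⟩
    obtain ⟨w1, w2, w3, w4⟩ := mem_lb.1 hw
    have he' : ({v, t, u} : Finset V) ∈ P := by rwa [← rot]
    exact own_label (toMM h) h.avx h.avy he' w2 w3 w4 w1 (mem_E h he' (by simp))
  have h1 := dg_pair h.three (P := P) n3 (mem_VS.2 ⟨_, he, by simp⟩)
    (mem_VS.2 ⟨_, he, by simp⟩)
  have h2 := h.dW_eq v t
  rw [hl, card_empty, zero_add] at h2
  have h3 : (N F v t ∩ {x, y}).card = (if x ∈ N F v t then 1 else 0) +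
      (if y ∈ N F v t then 1 else 0) := by
    rw [inter_comm, ← filter_mem_eq_inter, card_filter, sum_pair h.ne]
  rw [h1, h2, h3]
  unfold ne1
  have kx : 0 < (lb F P x y x u).card → y ∉ N F v t := own_kill_x h he
  have ky : 0 < (lb F P x y y u).card → x ∉ N F v t := own_kill_y h he
  by_cases a1 : 0 < (lb F P x y x u).card
  · rw [if_pos a1, if_neg (kx a1)]
    by_cases a2 : 0 < (lb F P x y y u).card
    · rw [if_pos a2, if_neg (ky a2)]
      norm_num
    · rw [if_neg a2]
      split_ifs <;> norm_num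
  · rw [if_neg a1]
    by_cases a2 : 0 < (lb F P x y y u).card
    · rw [if_pos a2, if_neg (ky a2)]
      split_ifs <;> norm_num
    · rw [if_neg a2]
      split_ifs <;> norm_num

theorem Gp_zero {e : Finset V} (he : e ∈ P) {u : V} (hu : u ∈ e) : Gp F P x y u = ∅ := by
  rw [← not_nonempty_iff_eq_empty]
  rintro ⟨k, hk⟩
  unfold Gp at hk
  rw [mem_filter] at hk
  obtain ⟨hkF, htr, hxk, hyk⟩ := hk
  have hu' : u ∈ k ∩ VS P := by rw [htr]; exact mem_singleton_self u
  rw [mem_inter] at hu'
  have h2 : (k.erase u).card = 2 := by rw [card_erase_of_mem hu'.1, h.three k hkF]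
  obtain ⟨w, w', hne, hE⟩ := card_eq_two.1 h2
  have heq : k = {u, w, w'} := by rw [← insert_erase hu'.1, hE]
  have hw : w ∈ k.erase u := by rw [hE]; simp
  have hw' : w' ∈ k.erase u := by rw [hE]; simp
  have out : ∀ z ∈ k.erase u, z ∉ VS P := by
    intro z hz hzP
    have : z ∈ k ∩ VS P := mem_inter.2 ⟨mem_of_mem_erase hz, hzP⟩
    rw [htr, mem_singleton] at this
    exact ne_of_mem_erase hz this
  obtain ⟨v, t, hEe, h1, h3, h4, -⟩ := block_at h he hu
  have hv : v ∈ e := by rw [hEe]; simp
  have he' := he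
  rw [hEe] at he'
  refine (own_G (toMM h) h.avx h.avy he' (out w hw) (out w' hw') ?_ ?_ ?_ ?_
    (by rw [← heq]; exact hkF)).1 (mem_E h he hv)
  · rintro rfl; exact hxk (mem_of_mem_erase hw)
  · rintro rfl; exact hyk (mem_of_mem_erase hw)
  · rintro rfl; exact hxk (mem_of_mem_erase hw')
  · rintro rfl; exact hyk (mem_of_mem_erase hw')

/-- a set `N'_o(u)`: its size without the own kill -/
theorem nx_le {e : Finset V} (he : e ∈ P) {u : V} (hu : u ∈ e) {o : V} (ho : o ∉ VS P) :
    ((lb F P x y o u).card : ℤ) - ne1 F P x y o u ≤ ((s : ℤ) - 1) * bg F P x y o u := by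
  have h1 := h.lb_out_E_le ho (mem_E h he hu)
  unfold ne1 bg
  by_cases h2 : 2 ≤ (lb F P x y o u).card
  · rw [if_pos h2, if_pos (by omega)]
    push_cast
    have : ((lb F P x y o u).card : ℤ) ≤ s := by exact_mod_cast h1
    linarith
  · rw [if_neg h2]
    split_ifs <;> push_cast <;> omega

/-- **the block inequality**, `j = 0` -/
theorem block_le {e : Finset V} (he : e ∈ P) :
    (Res83.A F P {e} : ℤ) - 10 ≤ ((s : ℤ) - 1) * Bg F P x y e := by
  rw [h.A_block he]
  have h1 := h.sum_points he
  have hty : ty F x y e = 0 := ty_zero h he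
  rw [hty] at h1
  obtain ⟨u, v, t, huv, hut, hvt, hE⟩ := card_eq_three.1 (h.threeP e he)
  subst hE
  have G : ∀ z ∈ ({u, v, t} : Finset V), (Gp F P x y z).card = 0 := fun z hz => by
    rw [Gp_zero h he hz, card_empty]
  have s3 : ∀ g : V → ℤ, ∑ z ∈ ({u, v, t} : Finset V), g z = g u + g v + g t := by
    intro g
    rw [sum_insert (by simp [huv, hut]), sum_pair hvt]
    ring
  rw [s3] at h1
  rw [G u (by simp), G v (by simp), G t (by simp)] at h1
  rw [pairs_of_three huv hut hvt]
  have e2 : ({v, u, t} : Finset V) ∈ P := by rwa [triple_comm12]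
  have e3 : ({t, u, v} : Finset V) ∈ P := by
    have : ({t, u, v} : Finset V) = {u, v, t} := by rw [← rot t u v]
    rwa [this]
  have o1 := own_pair h he
  have o2 := own_pair h e2
  have o3 := own_pair h e3
  have n1 := nx_le h he (u := u) (by simp) h.avx
  have n2 := nx_le h he (u := u) (by simp) h.avy
  have n3 := nx_le h he (u := v) (by simp) h.avx
  have n4 := nx_le h he (u := v) (by simp) h.avy
  have n5 := nx_le h he (u := t) (by simp) h.avx
  have n6 := nx_le h he (u := t) (by simp) h.avy
  have hB : (Bg F P x y {u, v, t} : ℤ) = (bg F P x y x u + bg F P x y y u) +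
      (bg F P x y x v + bg F P x y y v) + (bg F P x y x t + bg F P x y y t) := by
    unfold Bg
    rw [sum3 huv hut hvt]
    push_cast
    ring
  rw [hB]
  push_cast at h1
  have : ∑ p ∈ ({u, v, t} : Finset V).powersetCard 1,
      (Helper28.Res.dg F (VS P) p : ℤ) - 3 = _ := h1
  nlinarith [this, o1, o2, o3, n1, n2, n3, n4, n5, n6]

end

end Helper70.Res

namespace RouteA

open Finset Res12 Helper70.Res

variable {V : Type} [Fintype V] [DecidableEq V]
variable {F P : Finset (Finset V)} {s : ℕ} {x y : V}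

/-- **the case `j = 0`** of route A: some pair of points has codegree `3 s` -/
theorem card_le_j0 (h : SetUp F s 0 P x y) (_hs : 3 ≤ s) :
    F.card ≤ (3 * s + 2).choose 3 := by
  have h1 := h.exact
  have h2 := sum_two P (fun S => (Res83.A F P S : ℤ) - 36)
  have h3 := h.sum_m3
  have hblock : ∑ e ∈ P, ((Res83.A F P {e} : ℤ) - 10) ≤
      ((s : ℤ) - 1) * ∑ e ∈ P, (Bg F P x y e : ℤ) := by
    rw [Finset.mul_sum]
    exact Finset.sum_le_sum fun e he => block_le h he
  have hcard : ∀ e ∈ P, ((P.erase e).card : ℤ) = (s : ℤ) - 1 := by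
    intro e he
    rw [Finset.card_erase_of_mem he, h.card]
    have : 1 ≤ s := by omega
    push_cast [Nat.cast_sub this]
    ring
  have hpair : ∑ e ∈ P, ∑ f ∈ P.erase e, (3 * ((Res83.A F P {e, f} : ℤ) - 36) -
      ∑ a ∈ e, ∑ b ∈ f, ((m3 F P e f a b).card : ℤ)) ≤
      ∑ e ∈ P, ∑ f ∈ P.erase e, (-3 * ((Bg F P x y e : ℤ) + Bg F P x y f)) := by
    refine Finset.sum_le_sum fun e he => Finset.sum_le_sum fun f hf => ?_
    rw [Finset.mem_erase] at hf
    have k1 := pair_le h he hf.2 hf.1.symm
    have k2 := h.A_pair he hf.2 hf.1.symm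
    rw [k2]
    unfold t0 at k1
    simp only [Finset.sum_sub_distrib, ← Finset.mul_sum] at k1
    linarith
  have hsum : ∑ e ∈ P, ∑ f ∈ P.erase e, (-3 * ((Bg F P x y e : ℤ) + Bg F P x y f)) =
      -6 * ((s : ℤ) - 1) * ∑ e ∈ P, (Bg F P x y e : ℤ) := by
    have e1 : ∑ e ∈ P, ∑ f ∈ P.erase e, (Bg F P x y e : ℤ) =
        ((s : ℤ) - 1) * ∑ e ∈ P, (Bg F P x y e : ℤ) := by
      rw [Finset.mul_sum]
      refine Finset.sum_congr rfl fun e he => ?_
      rw [Finset.sum_const, nsmul_eq_mul, hcard e he]
    have e2 : ∑ e ∈ P, ∑ f ∈ P.erase e, (Bg F P x y f : ℤ) =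
        ((s : ℤ) - 1) * ∑ e ∈ P, (Bg F P x y e : ℤ) := by
      have : ∀ e ∈ P, ∑ f ∈ P.erase e, (Bg F P x y f : ℤ) =
          ∑ f ∈ P, (Bg F P x y f : ℤ) - Bg F P x y e := by
        intro e he
        rw [← Finset.sum_erase_add P _ he]
        ring
      rw [Finset.sum_congr rfl this, Finset.sum_sub_distrib, Finset.sum_const, nsmul_eq_mul,
        h.card]
      ring
    have e3 : ∑ e ∈ P, ∑ f ∈ P.erase e, (-3 * ((Bg F P x y e : ℤ) + Bg F P x y f)) =
        -3 * (∑ e ∈ P, ∑ f ∈ P.erase e, (Bg F P x y e : ℤ) +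
          ∑ e ∈ P, ∑ f ∈ P.erase e, (Bg F P x y f : ℤ)) := by
      simp only [← Finset.sum_add_distrib, Finset.mul_sum]
    rw [e3, e1, e2]
    ring
  have hm3 : (6 : ℤ) * ∑ S ∈ P.powersetCard 3, ((mis F S).card : ℤ) =
      ∑ e ∈ P, ∑ f ∈ P.erase e, ∑ a ∈ e, ∑ b ∈ f, ((m3 F P e f a b).card : ℤ) := by
    exact_mod_cast h3
  rw [hsum] at hpair
  simp only [Finset.sum_sub_distrib, ← Finset.mul_sum] at hpair h2
  have key : (F.card : ℤ) - ((3 * s + 2).choose 3 : ℤ) ≤ 0 := by
    simp only [Finset.sum_sub_distrib] at h1 hblock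
    nlinarith [h1, h2, hm3, hblock, hpair]
  have : (F.card : ℤ) ≤ ((3 * s + 2).choose 3 : ℕ) := by linarith
  exact_mod_cast this

end RouteA
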