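import Pool.Agent.Helper9.Res.PM
import Pool.Agent.Helper65.Res.LA2
import Pool.Agent.Helper13.Res.Caps

/-!
# Project RES (MP_d365ae_co), the case `j = 0`: two blocks

`e = {u, v, t}`, `f = {a, b, c}` are blocks.  `t0` of a cell is `3 lam - |m3|`.

* `mis18`: the missing triples of two blocks, as a sum of 18 terms;
* `pm_nonpos`: `j = 0`: the sum of `t0` over a perfect matching of the cells is at most `0`;
* `label_kills`, `live_or_dead`: the kills;
* `pair_le`: the inequality for two blocks with the terms of the big sets `N'_x`, `N'_y`.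
-/

namespace Helper70.Res

open Finset Res12 RouteA Helper1.Res Helper54.Res Helper9.Res

set_option linter.unusedSectionVars false

variable {V : Type} [Fintype V] [DecidableEq V]
variable {F P : Finset (Finset V)} {s j : ℕ} {x y : V}

theorem ms_23 (p q r : V) : ms F p q r = ms F p r q := by
  unfold ms
  rw [pair_comm]

theorem ms_one {p q r : V} (h : ({p, q, r} : Finset V) ∉ F) : ms F p q r = 1 := by
  unfold ms
  rw [if_neg h]

section
variable {e f : Finset V} {u v t a b c : V}

/-- exchange the first two columns only -/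
theorem _root_.Helper9.Res.Pm.c12 (p : Pm P e f u v t a b c) : Pm P e f u v t b a c :=
  ⟨p.he, p.hf, p.hef, p.hu, p.hv, p.ht, p.hb, p.ha, p.hc, p.huv, p.hut, p.hvt, p.hab.symm,
    p.hbc, p.hac⟩

/-- exchange the last two columns only -/
theorem _root_.Helper9.Res.Pm.c23 (p : Pm P e f u v t a b c) : Pm P e f u v t a c b :=
  ⟨p.he, p.hf, p.hef, p.hu, p.hv, p.ht, p.ha, p.hc, p.hb, p.huv, p.hut, p.hvt, p.hac,
    p.hab, p.hbc.symm⟩

/-- exchange the first two rows only -/
theorem _root_.Helper9.Res.Pm.r12 (p : Pm P e f u v t a b c) : Pm P e f v u t a b c :=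
  ⟨p.he, p.hf, p.hef, p.hv, p.hu, p.ht, p.ha, p.hb, p.hc, p.huv.symm, p.hvt, p.hut, p.hab,
    p.hac, p.hbc⟩

/-- exchange the last two rows only -/
theorem _root_.Helper9.Res.Pm.r23 (p : Pm P e f u v t a b c) : Pm P e f u t v a b c :=
  ⟨p.he, p.hf, p.hef, p.hu, p.ht, p.hv, p.ha, p.hb, p.hc, p.hut, p.huv, p.hvt.symm, p.hab,
    p.hac, p.hbc⟩

end

/-- `3 λ - |m3|` of a cell -/
def t0 (F P : Finset (Finset V)) (e f : Finset V) (a b : V) : ℤ :=
  3 * lam F P a b - ((m3 F P e f a b).card : ℤ)

section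
variable (h : SetUp F s j P x y)
include h

theorem eq_e {e f : Finset V} {u v t a b c : V} (p : Pm P e f u v t a b c) :
    ({u, v, t} : Finset V) = e := block_eq h p.he p.hu p.hv p.ht p.huv p.hut p.hvt

theorem eq_f {e f : Finset V} {u v t a b c : V} (p : Pm P e f u v t a b c) :
    ({a, b, c} : Finset V) = f := block_eq h p.hf p.ha p.hb p.hc p.hab p.hac p.hbc

/-- an enumeration of two blocks -/
theorem exists_Pm {e f : Finset V} (he : e ∈ P) (hf : f ∈ P) (hef : e ≠ f) {u a : V}
    (hu : u ∈ e) (ha : a ∈ f) : ∃ v t b c, Pm P e f u v t a b c := by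
  obtain ⟨v, t, hE, h1, h2, h3, -⟩ := block_at h he hu
  obtain ⟨b, c, hF, h4, h5, h6, -⟩ := block_at h hf ha
  exact ⟨v, t, b, c, he, hf, hef, hu, hE ▸ by simp, hE ▸ by simp, ha, hF ▸ by simp,
    hF ▸ by simp, h1, h2, h3, h4, h5, h6⟩

theorem m2_cell {e f : Finset V} {u v t a b c : V} (p : Pm P e f u v t a b c) :
    (m2 F e f u a).card = ms F u v a + ms F u t a + ms F u a b + ms F u a c := by
  have hM := toMM h
  have nef : ∀ {i k : V}, i ∈ e → k ∈ f → i ≠ k := fun hi hj => hM.neq p.he p.hf p.hef hi hj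
  have hS : (e ∪ f) \ {u, a} = {v, t, b, c} := by
    rw [← eq_e h p, ← eq_f h p]
    have e1 := nef p.hu p.ha
    have e2 := nef p.hu p.hb
    have e3 := nef p.hu p.hc
    have e4 := nef p.hv p.ha
    have e7 := nef p.ht p.ha
    have n1 := p.huv
    have n2 := p.hut
    have n4 := p.hab
    have n5 := p.hac
    ext z
    simp only [mem_sdiff, mem_union, mem_insert, mem_singleton, not_or]
    constructor
    · rintro ⟨(h1 | h1 | h1) | (h1 | h1 | h1), h2, h3⟩
      · exact absurd h1 h2
      · exact Or.inl h1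
      · exact Or.inr (Or.inl h1)
      · exact absurd h1 h3
      · exact Or.inr (Or.inr (Or.inl h1))
      · exact Or.inr (Or.inr (Or.inr h1))
    · rintro (rfl | rfl | rfl | rfl)
      · exact ⟨Or.inl (Or.inr (Or.inl rfl)), n1.symm, e4⟩
      · exact ⟨Or.inl (Or.inr (Or.inr rfl)), n2.symm, e7⟩
      · exact ⟨Or.inr (Or.inr (Or.inl rfl)), e2.symm, n4.symm⟩
      · exact ⟨Or.inr (Or.inr (Or.inr rfl)), e3.symm, n5.symm⟩
  unfold m2
  rw [hS, card_filter, sum_insert (by
      simp only [mem_insert, mem_singleton, not_or]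
      exact ⟨p.hvt, nef p.hv p.hb, nef p.hv p.hc⟩), sum_insert (by
      simp only [mem_insert, mem_singleton, not_or]
      exact ⟨nef p.ht p.hb, nef p.ht p.hc⟩), sum_pair p.hbc]
  have key : ∀ z, (if ({u, a, z} : Finset V) ∉ F then 1 else 0) = ms F u a z := by
    intro z
    unfold ms
    split_ifs <;> simp_all
  simp only [key]
  rw [ms_23 u v a, ms_23 u t a]
  omega

/-- the missing triples of two blocks -/
theorem mis18 {e f : Finset V} {u v t a b c : V} (p : Pm P e f u v t a b c) :
    (mis F {e, f}).card =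
      (ms F u v a + ms F u v b + ms F u v c + (ms F u t a + ms F u t b + ms F u t c) +
        (ms F v t a + ms F v t b + ms F v t c)) +
      (ms F u a b + ms F u a c + ms F u b c + (ms F v a b + ms F v a c + ms F v b c) +
        (ms F t a b + ms F t a c + ms F t b c)) := by
  have h1 := sum_m2 h p.he p.hf p.hef
  have q := p
  rw [← eq_e h p, ← eq_f h p, sum3 p.huv p.hut p.hvt, sum3 p.hab p.hac p.hbc,
    sum3 p.hab p.hac p.hbc, sum3 p.hab p.hac p.hbc, eq_e h p, eq_f h p] at h1
  rw [m2_cell h p, m2_cell h p.c12, m2_cell h p.c23.c12, m2_cell h p.r12, m2_cell h p.r12.c12,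
    m2_cell h p.r12.c23.c12, m2_cell h p.r23.r12, m2_cell h p.r23.r12.c12,
    m2_cell h p.r23.r12.c23.c12] at h1
  rw [ms_23 u b a, ms_23 u c a, ms_23 u c b, ms_23 v b a, ms_23 v c a, ms_23 v c b,
    ms_23 t b a, ms_23 t c a, ms_23 t c b, ms_comm v u a, ms_comm v u b, ms_comm v u c,
    ms_comm t u a, ms_comm t u b, ms_comm t u c, ms_comm t v a, ms_comm t v b,
    ms_comm t v c] at h1
  omega

/-- a fat cell has a label -/
theorem lb_of_fat {a b : V} (hf : 3 ≤ (N F a b \ VS P).card) : (lb F P x y a b).Nonempty := by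
  have h1 := h.dW_eq a b
  have h2 : (N F a b ∩ {x, y}).card ≤ 2 := (card_le_card inter_subset_right).trans card_le_two
  rw [← card_pos]
  unfold RouteA.dW at h1
  omega

/-- a cell without label has `λ ≤ 0` -/
theorem lam_of_no_lb {a b : V} (hl : lb F P x y a b = ∅) : lam F P a b ≤ 0 := by
  have h1 := h.dW_eq a b
  have h2 : (N F a b ∩ {x, y}).card ≤ 2 := (card_le_card inter_subset_right).trans card_le_two
  unfold lam
  rw [hl, card_empty] at h1
  omega

end

section
variable (h : SetUp F s 0 P x y)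
include h

/-- `j = 0`: every point of a block is in `E` -/
theorem mem_E {e : Finset V} (he : e ∈ P) {z : V} (hz : z ∈ e) : z ∈ N F x y := by
  have h1 := h.card_J
  rw [card_eq_zero, sdiff_eq_empty_iff_subset] at h1
  exact h1 (mem_VS.2 ⟨e, he, hz⟩)

theorem ty_zero {e : Finset V} (he : e ∈ P) : ty F x y e = 0 := by
  have h1 := h.sum_ty
  exact sum_eq_zero_iff.1 h1 e he

/-- two disjoint labelled cells have the same single label -/
theorem lb_same {e f : Finset V} {u v t a b c : V} (p : Pm P e f u v t a b c) {w w' : V}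
    (hw : w ∈ lb F P x y u a) (hw' : w' ∈ lb F P x y v b) : w = w' := by
  by_contra hww
  exact (zero_J h p hw hw' hww).1 (mem_E h p.he p.ht)

theorem lb_card_one {e f : Finset V} {u v t a b c : V} (p : Pm P e f u v t a b c)
    (hu : (lb F P x y u a).Nonempty) (hv : (lb F P x y v b).Nonempty) :
    (lb F P x y u a).card ≤ 1 := by
  obtain ⟨w', hw'⟩ := hv
  rw [card_le_one]
  intro z hz z' hz'
  rw [lb_same h p hz hw', lb_same h p hz' hw']

/-- a fat cell and a disjoint labelled cell: `dW ≤ 3` -/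
theorem dW_le_three {e f : Finset V} {u v t a b c : V} (p : Pm P e f u v t a b c)
    (hu : (lb F P x y u a).Nonempty) (hv : (lb F P x y v b).Nonempty) :
    (N F u a \ VS P).card ≤ 3 := by
  have h1 := h.dW_eq u a
  have h2 : (N F u a ∩ {x, y}).card ≤ 2 := (card_le_card inter_subset_right).trans card_le_two
  have h3 := lb_card_one h p hu hv
  unfold RouteA.dW at h1
  omega

/-- one fat cell -/
theorem pm_fat {e f : Finset V} {u v t a b c : V} (p : Pm P e f u v t a b c)
    (hf : 3 ≤ (N F u a \ VS P).card) :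
    t0 F P e f u a + t0 F P e f v b + t0 F P e f t c ≤ 0 := by
  have k1 := norep_fat (norep h p) hf
  have hl := lb_of_fat h hf
  have k2 := m3_pair h p hl
  rw [ty_zero h p.he, ty_zero h p.hf] at k2
  have k3 := h.lam_le u a
  unfold t0
  by_cases hv : 3 ≤ (N F v b \ VS P).card
  · have k4 := dW_le_three h p hl (lb_of_fat h hv)
    have k5 := dW_le_three h p.swap (lb_of_fat h hv) hl
    have k6 := norep_fat (norep h p).rot hv
    unfold lam RouteA.dW at *
    omega
  by_cases ht : 3 ≤ (N F t c \ VS P).card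
  · have k4 := dW_le_three h p.swap23 hl (lb_of_fat h ht)
    have k5 := dW_le_three h p.swap23.swap (lb_of_fat h ht) hl
    have k6 := norep_fat (norep h p).rot.rot ht
    unfold lam RouteA.dW at *
    omega
  unfold lam RouteA.dW at *
  omega

/-- **the perfect matchings** -/
theorem pm_nonpos {e f : Finset V} {u v t a b c : V} (p : Pm P e f u v t a b c) :
    t0 F P e f u a + t0 F P e f v b + t0 F P e f t c ≤ 0 := by
  by_cases hu : 3 ≤ (N F u a \ VS P).card
  · exact pm_fat h p hu
  by_cases hv : 3 ≤ (N F v b \ VS P).card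
  · have := pm_fat h p.rot hv
    linarith
  by_cases ht : 3 ≤ (N F t c \ VS P).card
  · have := pm_fat h p.rot.rot ht
    linarith
  unfold t0 lam RouteA.dW
  omega

/-- the sum of `t0` over the nine cells -/
theorem nine {e f : Finset V} {u v t a b c : V} (p : Pm P e f u v t a b c)
    (g : V → V → ℤ) : ∑ i ∈ e, ∑ k ∈ f, g i k =
      g u a + g u b + g u c + (g v a + g v b + g v c) + (g t a + g t b + g t c) := by
  have s3 : ∀ {A : Finset V} {p q r : V}, ({p, q, r} : Finset V) = A → p ≠ q → p ≠ r → q ≠ r →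
      ∀ g : V → ℤ, ∑ i ∈ A, g i = g p + g q + g r := by
    intro A p q r hA h1 h2 h3 g
    rw [← hA, sum_insert (by simp [h1, h2]), sum_pair h3]
    ring
  rw [s3 (eq_e h p) p.huv p.hut p.hvt, s3 (eq_f h p) p.hab p.hac p.hbc,
    s3 (eq_f h p) p.hab p.hac p.hbc, s3 (eq_f h p) p.hab p.hac p.hbc]

/-- **label kills** -/
theorem label_kills {e f : Finset V} {u v t a b c : V} (p : Pm P e f u v t a b c)
    (hl : (lb F P x y u a).Nonempty) :
    ms F v t b = 1 ∧ ms F v t c = 1 ∧ ms F v b c = 1 ∧ ms F t b c = 1 := by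
  obtain ⟨w, hw⟩ := hl
  obtain ⟨w1, w2, w3, w4⟩ := mem_lb.1 hw
  have hM := toMM h
  have w1' : ({a, u, w} : Finset V) ∈ F := by rwa [triple_comm12]
  -- the kill of `{v, t, b}`
  have key : ∀ {e f : Finset V} {u v t a b c : V}, Pm P e f u v t a b c →
      ({u, a, w} : Finset V) ∈ F → ms F v t b = 1 := by
    intro e f u v t a b c p hw1
    apply ms_one
    intro h2
    have E1 := eq_e h p
    have E2 := eq_f h p
    refine label_inner hM h.avx h.avy (u := u) (v := v) (t := t) (a := a) (b := b) (c := c)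
      (by rw [E1]; exact p.he) (by rw [E2]; exact p.hf) (by rw [E1, E2]; exact p.hef) w2 w3 w4
      hw1 h2 (mem_E h p.hf p.hc)
  refine ⟨key p w1, key p.c23 w1, ?_, ?_⟩
  · have h2 : ms F b c v = ms F v b c := by rw [ms_23, ms_comm, ms_23 v b c, ms_comm v c b]
    have h3 := key p.tr w1'
    rw [← h3]
    unfold ms
    congr 2
    ext z
    simp only [mem_insert, mem_singleton]
    tauto
  · have h3 := key p.tr.c23 w1'
    rw [← h3]
    unfold ms
    congr 2
    ext z
    simp only [mem_insert, mem_singleton]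
    tauto

end

end Helper70.Res
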