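import Pool.Agent.Helper70.Res.J0a

/-!
# Project RES (MP_d365ae_co), the case `j = 0`: the pair inequality

A set `N'_o(p)`, `o = x` or `o = y`, is big if it has at least two elements.  For two blocks `e`,
`f` the sum of `3 lam - |m3|` over the nine cells minus three times the number of missing triples
is at most minus three times the number of big sets at the points of `e` and `f`.
-/

namespace Helper70.Res

open Finset Res12 RouteA Helper1.Res Helper54.Res Helper9.Res

set_option linter.unusedSectionVars false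

variable {V : Type} [Fintype V] [DecidableEq V]
variable {F P : Finset (Finset V)} {s j : ℕ} {x y : V}

section
variable (h : SetUp F s j P x y)
include h

/-- **K1 kill with `N'_o(u)`**: `{o,u,w}`, `{v,a,z}`, `{t,b,c}` are not all edges -/
theorem live_kill {e f : Finset V} {u v t a b c : V} (p : Pm P e f u v t a b c) {o : V}
    (ho : o ∉ VS P) (hb : 2 ≤ (lb F P x y o u).card) {z : V} (hz : z ∈ N F v a)
    (hzV : z ∉ VS P) (hzo : z ≠ o) (hox : o = x ∨ o = y) : ms F t b c = 1 := by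
  obtain ⟨w, hw, hwz⟩ := exists_mem_ne1 hb z
  obtain ⟨w1, w2, w3, w4⟩ := mem_lb.1 hw
  rw [mem_N] at hz
  have hwo : w ≠ o := by
    rcases hox with rfl | rfl
    · exact w3
    · exact w4
  have hM := toMM h
  have nef : ∀ {i k : V}, i ∈ e → k ∈ f → i ≠ k := fun hi hj => hM.neq p.he p.hf p.hef hi hj
  apply ms_one
  intro h3
  refine two_blocks hM p.he p.hf w1 hz h3
    (disj3 ⟨(out_ne p.he p.hv ho).symm, (out_ne p.hf p.ha ho).symm, hzo.symm, p.huv,
      nef p.hu p.ha, out_ne p.he p.hu hzV, (out_ne p.he p.hv w2).symm,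
      (out_ne p.hf p.ha w2).symm, hwz⟩)
    (disj3 ⟨(out_ne p.he p.ht ho).symm, (out_ne p.hf p.hb ho).symm,
      (out_ne p.hf p.hc ho).symm, p.hut, nef p.hu p.hb, nef p.hu p.hc,
      (out_ne p.he p.ht w2).symm, (out_ne p.hf p.hb w2).symm, (out_ne p.hf p.hc w2).symm⟩)
    (disj3 ⟨p.hvt, nef p.hv p.hb, nef p.hv p.hc, (nef p.ht p.ha).symm, p.hab, p.hac,
      (out_ne p.he p.ht hzV).symm, (out_ne p.hf p.hb hzV).symm,
      (out_ne p.hf p.hc hzV).symm⟩) ?_ ?_ ?_
  · intro z hz
    simp only [mem_insert, mem_singleton] at hz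
    rcases hz with rfl | rfl | rfl
    · exact Or.inr (Or.inr ho)
    · exact Or.inl p.hu
    · exact Or.inr (Or.inr w2)
  · intro z' hz'
    simp only [mem_insert, mem_singleton] at hz'
    rcases hz' with rfl | rfl | rfl
    · exact Or.inl p.hv
    · exact Or.inr (Or.inl p.ha)
    · exact Or.inr (Or.inr hzV)
  · intro z hz
    simp only [mem_insert, mem_singleton] at hz
    rcases hz with rfl | rfl | rfl
    · exact Or.inl p.ht
    · exact Or.inr (Or.inl p.hb)
    · exact Or.inr (Or.inl p.hc)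

/-- a cell `v a` in another row is live (kills `{t,b,c}`) or dead (`λ ≤ -1`, no label) -/
theorem live_or_dead {e f : Finset V} {u v t a b c : V} (p : Pm P e f u v t a b c) {o : V}
    (hox : o = x ∨ o = y) (hb : 2 ≤ (lb F P x y o u).card) :
    ms F t b c = 1 ∨ lam F P v a ≤ -1 := by
  have ho : o ∉ VS P := by
    rcases hox with rfl | rfl
    · exact h.avx
    · exact h.avy
  by_cases hz : ∃ z ∈ N F v a \ VS P, z ≠ o
  · obtain ⟨z, hz, hzo⟩ := hz
    rw [mem_sdiff] at hz
    exact Or.inl (live_kill h p ho hb hz.1 hz.2 hzo hox)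
  · right
    push Not at hz
    have h1 : N F v a \ VS P ⊆ {o} := fun z hz' => mem_singleton.2 (hz z hz')
    have h2 := card_le_card h1
    rw [card_singleton] at h2
    unfold lam RouteA.dW
    omega

/-- a labelled cell in another row kills -/
theorem lab_kill {e f : Finset V} {u v t a b c : V} (p : Pm P e f u v t a b c) {o : V}
    (hox : o = x ∨ o = y) (hb : 2 ≤ (lb F P x y o u).card) (hl : (lb F P x y v a).Nonempty) :
    ms F t b c = 1 := by
  obtain ⟨z, hz⟩ := hl
  obtain ⟨z1, z2, z3, z4⟩ := mem_lb.1 hz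
  rcases hox with rfl | rfl
  · exact live_kill h p h.avx hb (mem_N.2 z1) z2 z3 (Or.inl rfl)
  · exact live_kill h p h.avy hb (mem_N.2 z1) z2 z4 (Or.inr rfl)

/-- the two sets `N'_x(u)`, `N'_y(v)` of different points of a block -/
theorem big_excl {e f : Finset V} {u v t a b c : V} (p : Pm P e f u v t a b c)
    (hb : 2 ≤ (lb F P x y x u).card) : (lb F P x y y v).card = 0 := by
  by_contra hne
  obtain ⟨w', hw'⟩ : (lb F P x y y v).Nonempty := by
    rw [← card_pos]; omega
  obtain ⟨w, hw, hww⟩ := exists_mem_ne1 hb w'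
  obtain ⟨w1, w2, w3, w4⟩ := mem_lb.1 hw
  obtain ⟨z1, z2, z3, z4⟩ := mem_lb.1 hw'
  have hM := toMM h
  refine one_block hM p.he w1 z1
    (disj3 ⟨h.ne, (out_ne p.he p.hv h.avx).symm, z3.symm, out_ne p.he p.hu h.avy,
      p.huv, out_ne p.he p.hu z2, w4, (out_ne p.he p.hv w2).symm, hww⟩) ?_ ?_
  · intro z hz
    simp only [mem_insert, mem_singleton] at hz
    rcases hz with rfl | rfl | rfl
    · exact Or.inr h.avx
    · exact Or.inl p.hu
    · exact Or.inr w2
  · intro z hz
    simp only [mem_insert, mem_singleton] at hz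
    rcases hz with rfl | rfl | rfl
    · exact Or.inr h.avy
    · exact Or.inl p.hv
    · exact Or.inr z2

/-- the same with `x` and `y` exchanged -/
theorem big_excl' {e f : Finset V} {u v t a b c : V} (p : Pm P e f u v t a b c)
    (hb : 2 ≤ (lb F P x y y u).card) : (lb F P x y x v).card = 0 := by
  by_contra hne
  obtain ⟨w', hw'⟩ : (lb F P x y x v).Nonempty := by
    rw [← card_pos]; omega
  obtain ⟨w, hw, hww⟩ := exists_mem_ne1 hb w'
  obtain ⟨w1, w2, w3, w4⟩ := mem_lb.1 hw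
  obtain ⟨z1, z2, z3, z4⟩ := mem_lb.1 hw'
  have hM := toMM h
  refine one_block hM p.he w1 z1
    (disj3 ⟨h.ne.symm, (out_ne p.he p.hv h.avy).symm, z4.symm, out_ne p.he p.hu h.avx,
      p.huv, out_ne p.he p.hu z2, w3, (out_ne p.he p.hv w2).symm, hww⟩) ?_ ?_
  · intro z hz
    simp only [mem_insert, mem_singleton] at hz
    rcases hz with rfl | rfl | rfl
    · exact Or.inr h.avy
    · exact Or.inl p.hu
    · exact Or.inr w2
  · intro z hz
    simp only [mem_insert, mem_singleton] at hz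
    rcases hz with rfl | rfl | rfl
    · exact Or.inr h.avx
    · exact Or.inl p.hv
    · exact Or.inr z2

end

/-- `1` if `N'_o(u)` is big, else `0` -/
def bg (F P : Finset (Finset V)) (x y o u : V) : ℕ := if 2 ≤ (lb F P x y o u).card then 1 else 0

/-- the number of big sets at the points of a block -/
def Bg (F P : Finset (Finset V)) (x y : V) (e : Finset V) : ℕ :=
  ∑ u ∈ e, (bg F P x y x u + bg F P x y y u)

theorem bg_le (o u : V) : bg F P x y o u ≤ 1 := by
  unfold bg
  split_ifs <;> omega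

theorem card_of_bg {o u : V} (h : bg F P x y o u = 1) : 2 ≤ (lb F P x y o u).card := by
  unfold bg at h
  by_contra hc
  rw [if_neg hc] at h
  omega

theorem bg_zero {o u : V} (h : (lb F P x y o u).card = 0) : bg F P x y o u = 0 := by
  unfold bg
  rw [if_neg (by omega)]

section
variable (h : SetUp F s j P x y)
include h

/-- at most three big sets at a block -/
theorem Bg_le {e f : Finset V} {u v t a b c : V} (p : Pm P e f u v t a b c) :
    Bg F P x y e ≤ 3 := by
  unfold Bg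
  rw [← eq_e h p, sum3 p.huv p.hut p.hvt]
  have l1 := bg_le (F := F) (P := P) (x := x) (y := y) x u
  have l2 := bg_le (F := F) (P := P) (x := x) (y := y) x v
  have l3 := bg_le (F := F) (P := P) (x := x) (y := y) x t
  have l4 := bg_le (F := F) (P := P) (x := x) (y := y) y u
  have l5 := bg_le (F := F) (P := P) (x := x) (y := y) y v
  have l6 := bg_le (F := F) (P := P) (x := x) (y := y) y t
  have k1 : bg F P x y x u = 1 → bg F P x y y v = 0 ∧ bg F P x y y t = 0 := fun h1 =>
    ⟨bg_zero (big_excl h p (card_of_bg h1)), bg_zero (big_excl h p.r23 (card_of_bg h1))⟩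
  have k2 : bg F P x y x v = 1 → bg F P x y y u = 0 ∧ bg F P x y y t = 0 := fun h1 =>
    ⟨bg_zero (big_excl h p.r12 (card_of_bg h1)), bg_zero (big_excl h p.r12.r23 (card_of_bg h1))⟩
  have k3 : bg F P x y x t = 1 → bg F P x y y u = 0 ∧ bg F P x y y v = 0 := fun h1 =>
    ⟨bg_zero (big_excl h p.r23.r12 (card_of_bg h1)),
      bg_zero (big_excl h p.r23.r12.r23 (card_of_bg h1))⟩
  omega

end

section
variable (h : SetUp F s 0 P x y)
include h

/-- the six perfect matchings together: the sum over the nine cells is at most `0` -/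
theorem cells_nonpos {e f : Finset V} {u v t a b c : V} (p : Pm P e f u v t a b c) :
    ∑ i ∈ e, ∑ k ∈ f, t0 F P e f i k ≤ 0 := by
  rw [nine h p]
  have k1 := pm_nonpos h p
  have k2 := pm_nonpos h p.cols
  have k3 := pm_nonpos h p.c12
  have k4 := pm_nonpos h p.c12.cols
  have k5 := pm_nonpos h p.c23.c12
  have k6 := pm_nonpos h p.c23.c12.cols
  linarith

/-- two labelled cells kill at least six triples -/
theorem two_labelled {e f : Finset V} (he : e ∈ P) (hf : f ∈ P) (hef : e ≠ f) {u u' a a' : V}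
    (hu : u ∈ e) (hu' : u' ∈ e) (ha : a ∈ f) (ha' : a' ∈ f) (hne : u ≠ u' ∨ a ≠ a')
    (hl : (lb F P x y u a).Nonempty) (hl' : (lb F P x y u' a').Nonempty) :
    6 ≤ (mis F {e, f}).card := by
  by_cases huu : u = u'
  · subst huu
    have haa : a ≠ a' := by
      rcases hne with h1 | h1
      · exact absurd rfl h1
      · exact h1
    obtain ⟨v, t, hE, h1, h2, h3, -⟩ := block_at h he hu
    obtain ⟨c, hF, h4, h5⟩ := block_at2 h hf ha ha' haa
    have p : Pm P e f u v t a a' c := ⟨he, hf, hef, hu, hE ▸ by simp, hE ▸ by simp, ha, ha',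
      hF ▸ by simp, h1, h2, h3, haa, h4, h5⟩
    obtain ⟨k1, k2, k3, k4⟩ := label_kills h p hl
    obtain ⟨l1, l2, l3, l4⟩ := label_kills h p.c12 hl'
    rw [mis18 h p]
    omega
  by_cases haa : a = a'
  · subst haa
    obtain ⟨t, hE, h1, h2⟩ := block_at2 h he hu hu' huu
    obtain ⟨b, c, hF, h4, h5, h6, -⟩ := block_at h hf ha
    have p : Pm P e f u u' t a b c := ⟨he, hf, hef, hu, hu', hE ▸ by simp, ha, hF ▸ by simp,
      hF ▸ by simp, huu, h1, h2, h4, h5, h6⟩
    obtain ⟨k1, k2, k3, k4⟩ := label_kills h p hl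
    obtain ⟨l1, l2, l3, l4⟩ := label_kills h p.r12 hl'
    rw [mis18 h p]
    omega
  obtain ⟨t, hE, h1, h2⟩ := block_at2 h he hu hu' huu
  obtain ⟨c, hF, h4, h5⟩ := block_at2 h hf ha ha' haa
  have p : Pm P e f u u' t a a' c := ⟨he, hf, hef, hu, hu', hE ▸ by simp, ha, ha',
    hF ▸ by simp, huu, h1, h2, haa, h4, h5⟩
  obtain ⟨k1, k2, k3, k4⟩ := label_kills h p hl
  obtain ⟨l1, l2, l3, l4⟩ := label_kills h p.r12.c12 hl'
  rw [mis18 h p]
  omega

theorem t0_le {e f : Finset V} (a b : V) : t0 F P e f a b ≤ 3 * lam F P a b := by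
  unfold t0
  omega

/-- no labels, a big set at `u` -/
theorem flag_none {e f : Finset V} {u v t a b c : V} (p : Pm P e f u v t a b c) {o : V}
    (hox : o = x ∨ o = y) (hb : 2 ≤ (lb F P x y o u).card)
    (hl : ∀ i ∈ e, ∀ k ∈ f, lb F P x y i k = ∅) :
    ∑ i ∈ e, ∑ k ∈ f, t0 F P e f i k - 3 * ((mis F {e, f}).card : ℤ) ≤ -18 := by
  rw [nine h p, mis18 h p]
  have z : ∀ i ∈ e, ∀ k ∈ f, lam F P i k ≤ 0 ∧ t0 F P e f i k ≤ 3 * lam F P i k := fun i hi k hk =>
    ⟨lam_of_no_lb h (hl i hi k hk), t0_le h i k⟩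
  have z1 := z u p.hu a p.ha
  have z2 := z u p.hu b p.hb
  have z3 := z u p.hu c p.hc
  have z4 := z v p.hv a p.ha
  have z5 := z v p.hv b p.hb
  have z6 := z v p.hv c p.hc
  have z7 := z t p.ht a p.ha
  have z8 := z t p.ht b p.hb
  have z9 := z t p.ht c p.hc
  have d1 := live_or_dead h p hox hb
  have d2 := live_or_dead h p.c12 hox hb
  have d3 := live_or_dead h p.c23.c12 hox hb
  have d4 := live_or_dead h p.r23 hox hb
  have d5 := live_or_dead h p.r23.c12 hox hb
  have d6 := live_or_dead h p.r23.c23.c12 hox hb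
  push_cast
  omega

/-- one label `u a`, a big set at `u` -/
theorem flag_same {e f : Finset V} {u v t a b c : V} (p : Pm P e f u v t a b c) {o : V}
    (hox : o = x ∨ o = y) (hb : 2 ≤ (lb F P x y o u).card) (hu : (lb F P x y u a).Nonempty)
    (hl : ∀ i ∈ e, ∀ k ∈ f, (i ≠ u ∨ k ≠ a) → lb F P x y i k = ∅) :
    ∑ i ∈ e, ∑ k ∈ f, t0 F P e f i k - 3 * ((mis F {e, f}).card : ℤ) ≤ -18 := by
  rw [nine h p, mis18 h p]
  have z : ∀ i ∈ e, ∀ k ∈ f, (i ≠ u ∨ k ≠ a) → lam F P i k ≤ 0 ∧
      t0 F P e f i k ≤ 3 * lam F P i k := fun i hi k hk hne =>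
    ⟨lam_of_no_lb h (hl i hi k hk hne), t0_le h i k⟩
  have z2 := z u p.hu b p.hb (Or.inr p.hab.symm)
  have z3 := z u p.hu c p.hc (Or.inr p.hac.symm)
  have z4 := z v p.hv a p.ha (Or.inl p.huv.symm)
  have z5 := z v p.hv b p.hb (Or.inl p.huv.symm)
  have z6 := z v p.hv c p.hc (Or.inl p.huv.symm)
  have z7 := z t p.ht a p.ha (Or.inl p.hut.symm)
  have z8 := z t p.ht b p.hb (Or.inl p.hut.symm)
  have z9 := z t p.ht c p.hc (Or.inl p.hut.symm)
  obtain ⟨k1, k2, k3, k4⟩ := label_kills h p hu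
  have d2 := live_or_dead h p.c12 hox hb
  have d3 := live_or_dead h p.c23.c12 hox hb
  have d5 := live_or_dead h p.r23.c12 hox hb
  have d6 := live_or_dead h p.r23.c23.c12 hox hb
  have m1 := pm_nonpos h p
  have m2 := pm_nonpos h p.cols
  push_cast
  omega

/-- one label `v a`, a big set at `u` -/
theorem flag_diff {e f : Finset V} {u v t a b c : V} (p : Pm P e f u v t a b c) {o : V}
    (hox : o = x ∨ o = y) (hb : 2 ≤ (lb F P x y o u).card) (hv : (lb F P x y v a).Nonempty)
    (hl : ∀ i ∈ e, ∀ k ∈ f, (i ≠ v ∨ k ≠ a) → lb F P x y i k = ∅) :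
    ∑ i ∈ e, ∑ k ∈ f, t0 F P e f i k - 3 * ((mis F {e, f}).card : ℤ) ≤ -18 := by
  rw [nine h p, mis18 h p]
  have z : ∀ i ∈ e, ∀ k ∈ f, (i ≠ v ∨ k ≠ a) → lam F P i k ≤ 0 ∧
      t0 F P e f i k ≤ 3 * lam F P i k := fun i hi k hk hne =>
    ⟨lam_of_no_lb h (hl i hi k hk hne), t0_le h i k⟩
  have z1 := z u p.hu a p.ha (Or.inl p.huv)
  have z2 := z u p.hu b p.hb (Or.inl p.huv)
  have z3 := z u p.hu c p.hc (Or.inl p.huv)
  have z5 := z v p.hv b p.hb (Or.inr p.hab.symm)
  have z6 := z v p.hv c p.hc (Or.inr p.hac.symm)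
  have z7 := z t p.ht a p.ha (Or.inl p.hvt.symm)
  have z8 := z t p.ht b p.hb (Or.inl p.hvt.symm)
  have z9 := z t p.ht c p.hc (Or.inl p.hvt.symm)
  obtain ⟨k1, k2, k3, k4⟩ := label_kills h p.r12 hv
  have d2 := live_or_dead h p.c12 hox hb
  have d3 := live_or_dead h p.c23.c12 hox hb
  have d4 := live_or_dead h p.r23 hox hb
  have d5 := live_or_dead h p.r23.c12 hox hb
  have d6 := live_or_dead h p.r23.c23.c12 hox hb
  have m1 := pm_nonpos h p.r12
  have m2 := pm_nonpos h p.r12.cols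
  push_cast
  omega

/-- a big set at a point of `e` -/
theorem flag {e f : Finset V} (he : e ∈ P) (hf : f ∈ P) (hef : e ≠ f) {o u : V}
    (hox : o = x ∨ o = y) (hu : u ∈ e) (hb : 2 ≤ (lb F P x y o u).card) :
    ∑ i ∈ e, ∑ k ∈ f, t0 F P e f i k - 3 * ((mis F {e, f}).card : ℤ) ≤ -18 := by
  obtain ⟨a0, ha0⟩ : f.Nonempty := by
    rw [← card_pos, h.threeP f hf]
    norm_num
  obtain ⟨v0, t0', b0, c0, p0⟩ := exists_Pm h he hf hef hu ha0
  by_cases h2 : ∃ i ∈ e, ∃ k ∈ f, ∃ i' ∈ e, ∃ k' ∈ f, (i ≠ i' ∨ k ≠ k') ∧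
      (lb F P x y i k).Nonempty ∧ (lb F P x y i' k').Nonempty
  · obtain ⟨i, hi, k, hk, i', hi', k', hk', hne, hl, hl'⟩ := h2
    have m := two_labelled h he hf hef hi hi' hk hk' hne hl hl'
    have c := cells_nonpos h p0
    omega
  by_cases h1 : ∃ i ∈ e, ∃ k ∈ f, (lb F P x y i k).Nonempty
  · obtain ⟨i, hi, k, hk, hl⟩ := h1
    have hother : ∀ i' ∈ e, ∀ k' ∈ f, (i' ≠ i ∨ k' ≠ k) → lb F P x y i' k' = ∅ := by
      intro i' hi' k' hk' hne
      by_contra hcon
      exact h2 ⟨i', hi', k', hk', i, hi, k, hk, hne, nonempty_iff_ne_empty.2 hcon, hl⟩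
    by_cases hui : u = i
    · subst hui
      obtain ⟨v, t, b, c, p⟩ := exists_Pm h he hf hef hu hk
      exact flag_same h p hox hb hl hother
    · obtain ⟨t, hE, n1, n2⟩ := block_at2 h he hu hi hui
      obtain ⟨b, c, hF, n4, n5, n6, -⟩ := block_at h hf hk
      have p : Pm P e f u i t k b c := ⟨he, hf, hef, hu, hi, hE ▸ by simp, hk, hF ▸ by simp,
        hF ▸ by simp, hui, n1, n2, n4, n5, n6⟩
      exact flag_diff h p hox hb hl hother
  · push Not at h1
    exact flag_none h p0 hox hb (fun i hi k hk => h1 i hi k hk)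

/-- **the pair inequality**, `j = 0` -/
theorem pair_le {e f : Finset V} (he : e ∈ P) (hf : f ∈ P) (hef : e ≠ f) :
    ∑ i ∈ e, ∑ k ∈ f, t0 F P e f i k - 3 * ((mis F {e, f}).card : ℤ) ≤
      -3 * ((Bg F P x y e : ℤ) + Bg F P x y f) := by
  obtain ⟨u0, hu0⟩ : e.Nonempty := by
    rw [← card_pos, h.threeP e he]
    norm_num
  obtain ⟨a0, ha0⟩ : f.Nonempty := by
    rw [← card_pos, h.threeP f hf]
    norm_num
  obtain ⟨v0, t0', b0, c0, p0⟩ := exists_Pm h he hf hef hu0 ha0
  have be := Bg_le h p0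
  have bf := Bg_le h p0.tr
  have key : ∀ e : Finset V, Bg F P x y e ≠ 0 → ∃ u ∈ e, ∃ o, (o = x ∨ o = y) ∧
      2 ≤ (lb F P x y o u).card := by
    intro e hne
    by_contra hcon
    push Not at hcon
    apply hne
    unfold Bg
    apply sum_eq_zero
    intro u hu
    have h1 := hcon u hu x (Or.inl rfl)
    have h2 := hcon u hu y (Or.inr rfl)
    unfold bg
    rw [if_neg (by omega), if_neg (by omega), add_zero]
  by_cases h1 : Bg F P x y e = 0
  · by_cases h2 : Bg F P x y f = 0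
    · rw [h1, h2]
      have := cells_nonpos h p0
      push_cast
      omega
    · obtain ⟨a, ha, o, hox, hb⟩ := key f h2
      have k1 := flag h hf he hef.symm hox ha hb
      have k2 : ∑ i ∈ f, ∑ k ∈ e, t0 F P f e i k = ∑ i ∈ e, ∑ k ∈ f, t0 F P e f i k := by
        rw [sum_comm]
        refine sum_congr rfl fun i _ => sum_congr rfl fun k _ => ?_
        unfold t0
        rw [m3_comm, lam_comm]
      have k3 : ({f, e} : Finset (Finset V)) = {e, f} := pair_comm f e
      rw [k2, k3] at k1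
      omega
  · obtain ⟨u, hu, o, hox, hb⟩ := key e h1
    have k1 := flag h he hf hef hox hu hb
    omega

end

end Helper70.Res
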